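import Pool.Agent.H97.SS.Growth
import Pool.Agent.H97.SS.UAFinal
import Pool.Agent.H97.SS.LAFinal

/-!
# The growth rate of the degree of noninvertibility of stack-sorting

Let `d_n` be the degree of noninvertibility of the stack-sorting map on `S_n`. We prove that
`L = lim d_n ^ (1/n)` exists and `1.95325 < L < 1.95327`. In particular the conjecture
`1.68 < L < 1.73` is false.

The proof: counting pairs of permutations with the same image by the sizes of two valleys gives an
exact recursion for `d_n`; the generating functions `A_{pq}(z)` satisfy an infinite system of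
ordinary differential equations with nonnegative coefficients, `A_{11}` being the generating
function of `d_n`. The system is integrated rigorously from below (midpoint steps on the block
`p + q ≤ 14`) and from above (trapezoid steps on the same block with a geometric tail), in exact
integer arithmetic verified by the kernel.
-/

set_option autoImplicit false

namespace Pool.Agent.Results.MP_e324b2_co.GrowthRate

open Filter Topology
open Pool.Agent.H97.SS
open scoped NNReal

/-- `s(L m R) = s(L) s(R) m` if `m` is larger than all entries of `L` and `R`. -/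
theorem stackSort_eq (l r : List ℕ) (m : ℕ) (hl : ∀ x ∈ l, x < m) (hr : ∀ x ∈ r, x < m) :
    stackSort (l ++ m :: r) = stackSort l ++ stackSort r ++ [m] :=
  stackSort_split hl hr

theorem upper (N : ℕ) : av N 1 1 * (((562908171979 : ℕ) : ℝ) / 2 ^ 40) ^ N ≤
    ((8181543276443433554969507 : ℕ) : ℝ) / 2 ^ 64 :=
  upper_of_uinv UA.inv49 (by norm_num) UA.dig N

theorem lower : ¬ Summable (fun n => av n 1 1 * ((((1 : ℝ≥0) / 1.95325002 : ℝ≥0)) : ℝ) ^ n) := by
  refine lower_of_linv LA.inv44 (by norm_num) LA.dig (by norm_num) ?_
  rw [← NNReal.coe_le_coe]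
  push_cast
  norm_num

/-- The limit `L` of `d_n ^ (1/n)` exists, and `1.95325 < L < 1.95327`. -/
theorem result : ∃ L : ℝ, Tendsto (fun n : ℕ => deg n ^ ((1 : ℝ) / n)) atTop (𝓝 L) ∧
    1.95325 < L ∧ L < 1.95327 := by
  obtain ⟨L, h1, h2, h3⟩ := growth (by positivity) upper (by positivity) lower
  refine ⟨L, h1, lt_of_lt_of_le ?_ h2, lt_of_le_of_lt h3 ?_⟩
  · push_cast
    norm_num
  · norm_num

end Pool.Agent.Results.MP_e324b2_co.GrowthRate
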